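import Pool.Agent.Helper92.SGE.Goals
import Pool.Agent.Helper29.BL.QSN

/-! Project SG (MP_a41896_nt), packet SGE-NDG (helper79): a point of large height is not `0` and not
of order two. -/

set_option autoImplicit false

namespace Pool.Agent.Helper79.SGE

open WeierstrassCurve Height Height.AdmissibleAbsValues
open Pool.Agent.Helper29.BL Pool.Agent.Helper92.Ru Pool.Agent.Helper42.SG
open Pool.Agent.Helper92.SGE

theorem ndg (hD : EDUP) (hU : EUP) : NDG := by
  intro K _ _ _ W _ H c₀ hH P hP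
  have h0 : H (0 : W.Point) = 0 := hH.quad.zero
  have hc0 : hx (0 : W.Point) = 0 := by
    simp [hx, logHeight₁_zero]
  have hc : 0 ≤ c₀ := le_trans (abs_nonneg _) (hH.near 0)
  have hne : P ≠ 0 := by
    rintro rfl
    rw [hc0] at hP
    linarith
  refine ⟨hne, fun hps => ?_⟩
  have hB : Bf W (xc P) = 0 := by
    rw [← (hU K W).1 P hne, hps]
    simp
  have hPh : (Ph W 1 (xc P)).2 = 0 := by
    have : (Ph W 1 (xc P)).2 = Bf W (xc P) := by
      simp [Ph, Bh, Bf]
    rw [this, hB]
  have h2 : (2 ^ 1) • P = 0 := ((hD K W P 1 hne).2.1).1 hPh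
  have h4 : H ((2 ^ 1) • P) = ((2 ^ 1 : ℕ) : ℝ) ^ 2 * H P := hH.quad.nsmul (2 ^ 1) P
  rw [h2, h0] at h4
  have hHP : H P = 0 := by
    norm_num at h4
    linarith
  have hn := hH.near P
  rw [hHP, zero_sub, abs_neg] at hn
  have := le_abs_self (hx P)
  linarith

end Pool.Agent.Helper79.SGE
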